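import Pool.Agent.H31.LEV.Targets

/-!
Levinson's method, module FIN: the two inequalities for a family.
-/

set_option autoImplicit false

open Complex Filter Topology Set
open Pool.Agent.H31.LEV

namespace Pool.Agent.H22.LEV.Fin

lemma Ro_eq (a b c d : ℝ) : Ro a b c d = (reCLM ⁻¹' Ioo a b) ∩ (imCLM ⁻¹' Ioo c d) := by
  ext s
  simp only [Ro, mem_ofPred_eq, mem_inter_iff, mem_preimage, mem_Ioo, reCLM_apply, imCLM_apply]
  tauto

lemma isOpen_Ro (a b c d : ℝ) : IsOpen (Ro a b c d) := by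
  rw [Ro_eq]
  exact (isOpen_Ioo.preimage reCLM.continuous).inter (isOpen_Ioo.preimage imCLM.continuous)

lemma isPreconnected_Ro (a b c d : ℝ) : IsPreconnected (Ro a b c d) := by
  rw [Ro_eq]
  exact (((convex_Ioo a b).linear_preimage reCLM.toLinearMap).inter
    ((convex_Ioo c d).linear_preimage imCLM.toLinearMap)).isPreconnected

lemma isCompact_Rc (a b c d : ℝ) : IsCompact (Rc a b c d) := by
  have : Rc a b c d = Icc a b ×ℂ Icc c d := by
    ext s
    simp only [Rc, mem_ofPred_eq, mem_reProdIm, mem_Icc]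
    tauto
  rw [this]
  exact isCompact_Icc.reProdIm isCompact_Icc

lemma pt_re (x t : ℝ) : (pt x t).re = x := by simp [pt]

lemma pt_im (x t : ℝ) : (pt x t).im = t := by simp [pt]

lemma pt_mem_Ro {x t a b c d : ℝ} (h1 : a < x) (h2 : x < b) (h3 : c < t) (h4 : t < d) :
    pt x t ∈ Ro a b c d := by
  refine ⟨?_, ?_, ?_, ?_⟩ <;> simp only [pt_re, pt_im] <;> assumption

lemma pt_mem_Rc {x t a b c d : ℝ} (h1 : a ≤ x) (h2 : x ≤ b) (h3 : c ≤ t) (h4 : t ≤ d) :
    pt x t ∈ Rc a b c d := by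
  refine ⟨?_, ?_, ?_, ?_⟩ <;> simp only [pt_re, pt_im] <;> assumption

/-- The generic shift. -/
lemma exists_shift (H : Set ℝ) (hH : H.Finite) (K J : ℕ) (hK : 2 ≤ K) :
    ∃ ts : ℝ, 0 < ts ∧ ts < 3 / K ∧ ∀ j ≤ J, ts - 3 + j * (3 / K) ∉ H ∧
      ts - 3 + j * (3 / K) + 3 ∉ H := by
  have hK0 : (0 : ℝ) < K := by
    have : 0 < K := by omega
    exact_mod_cast this
  have hfin : (⋃ j ∈ Finset.range (J + 1), ((fun h : ℝ => h + 3 - j * (3 / (K : ℝ))) '' H ∪
      (fun h : ℝ => h - j * (3 / (K : ℝ))) '' H)).Finite := by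
    apply Set.Finite.biUnion (Finset.finite_toSet _)
    intro j _
    exact (hH.image _).union (hH.image _)
  obtain ⟨ts, h1, h2⟩ := (Ioo_infinite (by positivity : (0 : ℝ) < 3 / K)).exists_notMem_finite hfin
  refine ⟨ts, h1.1, h1.2, fun j hj => ⟨fun h => ?_, fun h => ?_⟩⟩
  · apply h2
    simp only [mem_iUnion]
    refine ⟨j, Finset.mem_range.mpr (by omega), Or.inl ⟨_, h, ?_⟩⟩
    ring
  · apply h2
    simp only [mem_iUnion]
    refine ⟨j, Finset.mem_range.mpr (by omega), Or.inr ⟨_, h, ?_⟩⟩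
    ring

end Pool.Agent.H22.LEV.Fin

namespace Pool.Agent.H22.LEV

open Pool.Agent.H22.LEV.Fin

theorem pf_FIN (hNB : T_NB) (hNA : T_NA) (hHHR : T_HHR) (hORD : T_ORD) (hGEN : T_GEN)
    (hWIN : T_WIN) (hJAV : T_JAV) : T_FIN := by
  classical
  obtain ⟨CB, hCB, hNB⟩ := hNB
  obtain ⟨CA, hCA, hNA⟩ := hNA
  obtain ⟨CJ, hCJ, hJAV⟩ := hJAV
  have hpi := Real.pi_pos
  have hlog20 : 0 < Real.log 20 := Real.log_pos (by norm_num)
  refine ⟨CB + CA * (1 + Real.log 20) + CJ + 6 * Real.exp Real.pi, by positivity, ?_⟩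
  intro X _ L ψ W K T A D ε δ ℓ c a a₁ B C₁ C₂ hK hT hA hℓ hD hε hε4 hδ hδ2 hc hc1 ha haa₁ ha₁ hB
    hC₁ hC₂ hFE hψ hgr hdig hcD hr hm1 hm2 hm3
  have hK0 : (0 : ℝ) < K := by
    have : 0 < K := by omega
    exact_mod_cast this
  have hK2 : (2 : ℝ) ≤ K := by exact_mod_cast hK
  have hAℓ : 0 < A * ℓ := by positivity
  set Vr := Ro (1 / 10) 6 (-6) (T + 8) with hVr
  have hVo : IsOpen Vr := isOpen_Ro _ _ _ _
  have hVp : IsPreconnected Vr := isPreconnected_Ro _ _ _ _
  have hbox : ∀ s ∈ Vr, 1 / 20 ≤ s.re ∧ s.re ≤ 7 ∧ |s.im| ≤ T + 10 := by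
    rintro s ⟨h1, h2, h3, h4⟩
    refine ⟨by linarith, by linarith, ?_⟩
    rw [abs_le]
    constructor <;> linarith
  have hUV : Ro (1 / 10) 6 (-6) (T + 6) ⊆ Vr := by
    rintro s ⟨h1, h2, h3, h4⟩
    exact ⟨h1, h2, h3, by linarith⟩
  have hVre : ∀ s ∈ Vr, 0 < s.re ∧ c * ‖digamma s‖ ≤ 1 / 2 := by
    intro s hs
    obtain ⟨h1, h2, h3⟩ := hbox s hs
    refine ⟨by linarith, ?_⟩
    calc c * ‖digamma s‖ ≤ c * D := mul_le_mul_of_nonneg_left (hdig s h1 h2 h3) hc.le
      _ ≤ 1 / 2 := hcD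
  have hVV : ∀ χ, DifferentiableOn ℂ (VV (L χ) B c) Vr := fun χ =>
    (hHHR (L χ) B c Vr hB hc (hFE χ).diff hVo hVre).2.2.1
  set F : X → ℂ → ℂ := fun χ s => VV (L χ) B c s * ψ χ s with hF
  have hFd : ∀ χ, DifferentiableOn ℂ (F χ) Vr := fun χ =>
    (hVV χ).mul (hψ χ).differentiableOn
  have hF0 : ∀ χ, F χ (pt 3 0) ≠ 0 := by
    intro χ h0
    have := (hr χ 0 (by rw [abs_zero]; linarith)).2.2
    have h1 : VV (L χ) B c (pt 3 0) * ψ χ (pt 3 0) = 0 := h0
    rw [h1, zero_sub, norm_neg, norm_one] at this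
    linarith
  have hp30 : pt 3 0 ∈ Vr :=
    pt_mem_Ro (by norm_num) (by norm_num) (by norm_num) (by linarith)
  have hRcV : Rc (1 / 8) 3 (-5) (T + 7) ⊆ Vr := by
    rintro s ⟨h1, h2, h3, h4⟩
    exact ⟨by linarith, by linarith, by linarith, by linarith⟩
  obtain ⟨fin1, fin2⟩ := hGEN X F Vr (1 / 8) 3 (-5) (T + 7) hVo hVp hRcV hFd
    (fun χ => ⟨pt 3 0, hp30, hF0 χ⟩)
  obtain ⟨a₂, ha₂, ha₂'⟩ := (Ioo_infinite haa₁).exists_notMem_finite fin1
  obtain ⟨ha₂l, ha₂r⟩ := ha₂
  set J := ⌈(T + 3) * K / 3⌉₊ with hJ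
  have hJ1 : (T + 3) * K / 3 ≤ J := Nat.le_ceil _
  have hJ2 : (J : ℝ) ≤ (T + 3) * K / 3 + 1 :=
    (Nat.ceil_lt_add_one (by positivity)).le
  obtain ⟨ts, hts0, hts1, hts⟩ := exists_shift _ fin2 K J hK
  -- heights
  have h3K : 3 / (K : ℝ) ≤ 3 / 2 := by
    rw [div_le_div_iff₀ hK0 (by norm_num)]
    linarith
  have hht : ∀ j ≤ J, -3 < ts - 3 + j * (3 / (K : ℝ)) ∧
      ts - 3 + j * (3 / (K : ℝ)) + 3 ≤ T + 6 := by
    intro j hj
    have e0 : (0 : ℝ) ≤ j * (3 / (K : ℝ)) := by positivity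
    have e1 : (j : ℝ) ≤ J := by exact_mod_cast hj
    have e2 : (j : ℝ) * (3 / (K : ℝ)) ≤ ((T + 3) * K / 3 + 1) * (3 / (K : ℝ)) :=
      mul_le_mul_of_nonneg_right (e1.trans hJ2) (by positivity)
    have e3 : ((T + 3) * K / 3 + 1) * (3 / (K : ℝ)) = T + 3 + 3 / K := by
      field_simp
    constructor
    · linarith
    · rw [e3] at e2
      linarith
  have hleft : ∀ χ, ∀ t : ℝ, -3 ≤ t → t ≤ T + 7 → F χ (pt a₂ t) ≠ 0 := by
    intro χ t h1 h2 h0
    exact ha₂' ⟨χ, t, pt_mem_Rc (by linarith) (by linarith) (by linarith) h2, h0⟩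
  have hhor : ∀ χ, ∀ j ≤ J, ∀ x : ℝ, a₂ ≤ x → x ≤ 3 →
      F χ (pt x (ts - 3 + j * (3 / K))) ≠ 0 ∧ F χ (pt x (ts - 3 + j * (3 / K) + 3)) ≠ 0 := by
    intro χ j hj x h1 h2
    obtain ⟨e1, e2⟩ := hht j hj
    constructor
    · intro h0
      exact (hts j hj).1 ⟨χ, x, pt_mem_Rc (by linarith) h2 (by linarith) (by linarith), h0⟩
    · intro h0
      exact (hts j hj).2 ⟨χ, x, pt_mem_Rc (by linarith) h2 (by linarith) (by linarith), h0⟩
  have hright : ∀ χ, ∀ t : ℝ, -3 ≤ t → t ≤ T + 7 → ‖F χ (pt 3 t) - 1‖ ≤ δ := by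
    intro χ t h1 h2
    exact (hr χ t (by rw [abs_le]; constructor <;> linarith)).2.2
  have hRcW : Rc a₂ 3 (-3) (T + 7) ⊆ Vr := by
    rintro s ⟨h1, h2, h3, h4⟩
    exact ⟨by linarith, by linarith, by linarith, by linarith⟩
  -- windows
  have hW : ∀ χ, 2 * Real.pi * (Real.cos (Real.pi / (2 * K)) / Real.sin (Real.pi / (2 * K))) *
      ((1 / 2 - a₂) * NZ (F χ) {s | 1 / 2 ≤ s.re ∧ s.re < 3 ∧ 0 < s.im ∧ s.im < T}) ≤
      ∑ j ∈ Finset.range (J + 1), (Ja (F χ) a₂ 3 (ts - 3 + j * (3 / K)) 3 +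
        6 * δ * Real.exp Real.pi) := fun χ =>
    hWIN (F χ) Vr K J a₂ δ T ts hK (by linarith) (by linarith) hδ hδ2 (by linarith) hts0 hts1
      hJ1 hJ2 hVo hVp hRcW (hFd χ) (hleft χ) (hhor χ) (hright χ)
  have hJA : ∀ j ∈ Finset.range (J + 1), ∑ χ, Ja (F χ) a₂ 3 (ts - 3 + j * (3 / K)) 3 ≤
      (Fintype.card X : ℝ) * (3 / Real.pi * Real.log C₁ + CJ * ε * (1 + Real.log C₂)) := by
    intro j hj
    have hj' : j ≤ J := by
      have := Finset.mem_range.mp hj
      omega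
    obtain ⟨e1, e2⟩ := hht j hj'
    refine hJAV X F Vr a₂ (ts - 3 + j * (3 / K)) ε C₁ C₂ (by linarith) (by linarith) hε
      (by linarith) (by linarith) hC₁ hC₂ hVo ?_ hFd ?_ ?_ ?_ ?_ ?_
    · rintro s ⟨h1, h2, h3, h4⟩
      exact ⟨by linarith, by linarith, by linarith, by linarith⟩
    · intro χ t h1 h2
      exact hleft χ t (by linarith) (by linarith)
    · intro χ x h1 h2
      exact hhor χ j hj' x h1 h2
    · intro t h1 h2
      exact hm1 a₂ t ha₂l.le ha₂r.le (by rw [abs_le]; constructor <;> linarith)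
    · intro x h1 h2 t ht
      refine hm2 x t (by linarith) h2 ?_
      rcases ht with ht | ht
      · rw [ht, abs_le]
        constructor <;> linarith
      · rw [mem_singleton_iff] at ht
        rw [ht, abs_le]
        constructor <;> linarith
    · intro x h1 h2 t ht
      refine hm3 x t (by linarith) h2 ?_
      rcases ht with ht | ht
      · rw [ht, abs_le]
        constructor <;> linarith
      · rw [mem_singleton_iff] at ht
        rw [ht, abs_le]
        constructor <;> linarith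
  have hORD' : ∀ χ, NZ (VV (L χ) B c) {s | 1 / 2 ≤ s.re ∧ s.re < 3 ∧ 0 < s.im ∧ s.im < T} ≤
      NZ (F χ) {s | 1 / 2 ≤ s.re ∧ s.re < 3 ∧ 0 < s.im ∧ s.im < T} := by
    intro χ
    refine hORD (VV (L χ) B c) (ψ χ) Vr (Rc (1 / 2) 3 0 T) _ hVo hVp (isCompact_Rc _ _ _ _) ?_ ?_
      (hVV χ) (hψ χ).differentiableOn ⟨pt 3 0, hp30, hF0 χ⟩
    · rintro s ⟨h1, h2, h3, h4⟩
      exact ⟨by linarith, by linarith, by linarith, by linarith⟩
    · rintro s ⟨h1, h2, h3, h4⟩
      exact ⟨h1, h2.le, h3.le, h4.le⟩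
  have hlogC₁ : 0 ≤ Real.log C₁ := Real.log_nonneg hC₁
  have hlogC₂ : 0 ≤ Real.log C₂ := Real.log_nonneg hC₂
  have hexp : 0 < Real.exp Real.pi := Real.exp_pos _
  have hcard : (0 : ℝ) ≤ Fintype.card X := Nat.cast_nonneg _
  refine ⟨∑ χ, (NZ (VV (L χ) B c) {s | 1 / 2 ≤ s.re ∧ s.re < 3 ∧ 0 < s.im ∧ s.im < T} : ℝ),
    by positivity, ?_, ?_, ?_⟩
  · -- the lower bound
    have h1 : ∀ χ, (T - 2) * (Real.log B - D) / Real.pi -
        (CB + CA * (1 + Real.log 20) + CJ + 6 * Real.exp Real.pi) * (1 + A * ℓ) -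
        2 * (NZ (VV (L χ) B c) {s | 1 / 2 ≤ s.re ∧ s.re < 3 ∧ 0 < s.im ∧ s.im < T} : ℝ) ≤
        (Set.ncard (SC (L χ) T) : ℝ) := by
      intro χ
      have hexpA : 1 ≤ Real.exp (A * ℓ) := Real.one_le_exp hAℓ.le
      have e1 := hNA (L χ) B (W χ) T (20 * Real.exp (A * ℓ)) D c hB hT (by linarith) hD hc hc1
        (hFE χ) (by
          intro s hs
          obtain ⟨b1, b2, b3⟩ := hbox s (hUV hs)
          refine ⟨(hgr χ s b1 b2 b3).trans (by linarith), ?_, (hVre s (hUV hs)).2⟩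
          have := Complex.norm_deriv_le_of_forall_mem_sphere_norm_le (c := s) (R := 1 / 20)
            (C := Real.exp (A * ℓ)) (f := L χ) (by norm_num)
            ((hFE χ).diff.diffContOnCl) (by
              intro z hz
              rw [mem_sphere_iff_norm] at hz
              have c1 := (abs_re_le_norm (z - s)).trans hz.le
              have c2 := (abs_im_le_norm (z - s)).trans hz.le
              rw [sub_re, abs_le] at c1
              rw [sub_im, abs_le] at c2
              obtain ⟨d1, d2, d3, d4⟩ := hs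
              refine hgr χ z (by linarith [c1.1]) (by linarith [c1.2]) ?_
              rw [abs_le]
              constructor <;> linarith [c2.1, c2.2])
          refine this.trans (le_of_eq ?_)
          ring) (by
          intro t h1 h2
          exact (hr χ t (by rw [abs_le]; constructor <;> linarith)).2.1) (by
          intro t h1 h2
          refine (abs_re_le_norm _).trans (hdig _ ?_ ?_ ?_)
          · rw [pt_re]; norm_num
          · rw [pt_re]; norm_num
          · rw [pt_im, abs_le]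
            constructor <;> linarith)
      have e2 : Real.log (20 * Real.exp (A * ℓ)) = Real.log 20 + A * ℓ := by
        rw [Real.log_mul (by norm_num) (Real.exp_pos _).ne', Real.log_exp]
      rw [e2] at e1
      have e3 : CA * (1 + (Real.log 20 + A * ℓ)) ≤
          (CB + CA * (1 + Real.log 20) + CJ + 6 * Real.exp Real.pi) * (1 + A * ℓ) := by
        have f1 : 0 ≤ CB * (1 + A * ℓ) := by positivity
        have f2 : 0 ≤ CJ * (1 + A * ℓ) := by positivity
        have f3 : 0 ≤ 6 * Real.exp Real.pi * (1 + A * ℓ) := by positivity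
        have f4 : 0 ≤ CA * Real.log 20 * (A * ℓ) := by positivity
        have f5 : (CB + CA * (1 + Real.log 20) + CJ + 6 * Real.exp Real.pi) * (1 + A * ℓ) =
            CA * (1 + (Real.log 20 + A * ℓ)) + CA * Real.log 20 * (A * ℓ) + CB * (1 + A * ℓ) +
              CJ * (1 + A * ℓ) + 6 * Real.exp Real.pi * (1 + A * ℓ) := by ring
        rw [f5]
        linarith
      linarith
    have h2 := Finset.sum_le_sum fun χ (_ : χ ∈ (Finset.univ : Finset X)) => h1 χ
    rw [Finset.sum_sub_distrib, Finset.sum_const, ← Finset.mul_sum, Finset.card_univ,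
      nsmul_eq_mul] at h2
    exact h2
  · -- the windows
    set cot := Real.cos (Real.pi / (2 * K)) / Real.sin (Real.pi / (2 * K)) with hcot
    have hcot0 : 0 ≤ cot := by
      have e0 : Real.pi / (2 * K) ≤ Real.pi / 2 := by
        apply div_le_div_of_nonneg_left hpi.le (by norm_num)
        linarith
      have e1 : 0 ≤ Real.pi / (2 * K) := by positivity
      apply div_nonneg
      · exact Real.cos_nonneg_of_neg_pi_div_two_le_of_le (by linarith) e0
      · exact Real.sin_nonneg_of_nonneg_of_le_pi e1 (by linarith)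
    have hW2 := Finset.sum_le_sum fun χ (_ : χ ∈ (Finset.univ : Finset X)) => hW χ
    rw [Finset.sum_comm] at hW2
    have hR : ∑ j ∈ Finset.range (J + 1), ∑ χ, (Ja (F χ) a₂ 3 (ts - 3 + j * (3 / K)) 3 +
        6 * δ * Real.exp Real.pi) ≤ ∑ _j ∈ Finset.range (J + 1), (Fintype.card X : ℝ) *
          (3 / Real.pi * Real.log C₁ + CJ * ε * (1 + Real.log C₂) +
            6 * δ * Real.exp Real.pi) := by
      apply Finset.sum_le_sum
      intro j hj
      rw [Finset.sum_add_distrib, Finset.sum_const, Finset.card_univ, nsmul_eq_mul]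
      have := hJA j hj
      linarith
    rw [Finset.sum_const, Finset.card_range, nsmul_eq_mul] at hR
    have hL : 2 * Real.pi * cot * ((1 / 2 - a₁) * ∑ χ, (NZ (VV (L χ) B c)
        {s | 1 / 2 ≤ s.re ∧ s.re < 3 ∧ 0 < s.im ∧ s.im < T} : ℝ)) ≤
        ∑ χ, 2 * Real.pi * cot *
      ((1 / 2 - a₂) * NZ (F χ) {s | 1 / 2 ≤ s.re ∧ s.re < 3 ∧ 0 < s.im ∧ s.im < T}) := by
      rw [← Finset.mul_sum, ← Finset.mul_sum]
      apply mul_le_mul_of_nonneg_left _ (by positivity)
      apply mul_le_mul (by linarith) _ (by positivity) (by linarith)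
      apply Finset.sum_le_sum
      intro χ _
      exact_mod_cast hORD' χ
    refine hL.trans (hW2.trans (hR.trans ?_))
    have g1 : 0 ≤ 3 / Real.pi * Real.log C₁ + CJ * ε * (1 + Real.log C₂) +
        6 * δ * Real.exp Real.pi := by positivity
    have g2 : 3 / Real.pi * Real.log C₁ + CJ * ε * (1 + Real.log C₂) +
        6 * δ * Real.exp Real.pi ≤ 3 / Real.pi * Real.log C₁ +
          (CB + CA * (1 + Real.log 20) + CJ + 6 * Real.exp Real.pi) * ε * (1 + Real.log C₂) +
          (CB + CA * (1 + Real.log 20) + CJ + 6 * Real.exp Real.pi) * δ := by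
      have f1 : 0 ≤ (CB + CA * (1 + Real.log 20) + 6 * Real.exp Real.pi) * ε *
        (1 + Real.log C₂) := by positivity
      have f2 : 0 ≤ (CB + CA * (1 + Real.log 20) + CJ) * δ := by positivity
      have f3 : 3 / Real.pi * Real.log C₁ +
          (CB + CA * (1 + Real.log 20) + CJ + 6 * Real.exp Real.pi) * ε * (1 + Real.log C₂) +
          (CB + CA * (1 + Real.log 20) + CJ + 6 * Real.exp Real.pi) * δ =
          3 / Real.pi * Real.log C₁ + CJ * ε * (1 + Real.log C₂) + 6 * δ * Real.exp Real.pi +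
          (CB + CA * (1 + Real.log 20) + 6 * Real.exp Real.pi) * ε * (1 + Real.log C₂) +
          (CB + CA * (1 + Real.log 20) + CJ) * δ := by ring
      rw [f3]
      linarith
    have g3 : ((J + 1 : ℕ) : ℝ) ≤ (T + 3) * K / 3 + 2 := by
      push_cast
      linarith
    calc ((J + 1 : ℕ) : ℝ) * ((Fintype.card X : ℝ) * (3 / Real.pi * Real.log C₁ +
          CJ * ε * (1 + Real.log C₂) + 6 * δ * Real.exp Real.pi))
        ≤ ((T + 3) * K / 3 + 2) * ((Fintype.card X : ℝ) * (3 / Real.pi * Real.log C₁ +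
          CJ * ε * (1 + Real.log C₂) + 6 * δ * Real.exp Real.pi)) :=
          mul_le_mul_of_nonneg_right g3 (mul_nonneg hcard g1)
      _ ≤ ((T + 3) * K / 3 + 2) * ((Fintype.card X : ℝ) * (3 / Real.pi * Real.log C₁ +
          (CB + CA * (1 + Real.log 20) + CJ + 6 * Real.exp Real.pi) * ε * (1 + Real.log C₂) +
          (CB + CA * (1 + Real.log 20) + CJ + 6 * Real.exp Real.pi) * δ)) := by
          apply mul_le_mul_of_nonneg_left _ (by positivity)
          exact mul_le_mul_of_nonneg_left g2 hcard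
      _ = _ := by ring
  · -- the upper bound
    have h1 : ∀ χ, (NZ (L χ) {s | 0 < s.re ∧ s.re < 1 ∧ 0 < s.im ∧ s.im < T} : ℝ) ≤
        (T + 2) * (Real.log B + D) / Real.pi +
          (CB + CA * (1 + Real.log 20) + CJ + 6 * Real.exp Real.pi) * (1 + A * ℓ) := by
      intro χ
      have e1 := hNB (L χ) B (W χ) T (Real.exp (A * ℓ)) D hB (by linarith)
        (Real.one_le_exp hAℓ.le) hD (hFE χ) (by
          intro s hs
          obtain ⟨b1, b2, b3⟩ := hbox s (hUV hs)
          exact hgr χ s b1 b2 b3) (by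
          intro t h1 h2
          exact (hr χ t (by rw [abs_le]; constructor <;> linarith)).1) (by
          intro t h1 h2
          refine (abs_re_le_norm _).trans (hdig _ ?_ ?_ ?_)
          · rw [pt_re]; norm_num
          · rw [pt_re]; norm_num
          · rw [pt_im, abs_le]
            constructor <;> linarith)
      rw [Real.log_exp] at e1
      have e3 : CB * (1 + A * ℓ) ≤
          (CB + CA * (1 + Real.log 20) + CJ + 6 * Real.exp Real.pi) * (1 + A * ℓ) := by
        apply mul_le_mul_of_nonneg_right _ (by positivity)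
        have : 0 ≤ CA * (1 + Real.log 20) := by positivity
        linarith
      linarith
    have h2 := Finset.sum_le_sum fun χ (_ : χ ∈ (Finset.univ : Finset X)) => h1 χ
    rw [Finset.sum_const, Finset.card_univ, nsmul_eq_mul] at h2
    exact h2

end Pool.Agent.H22.LEV
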