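import Pool.Agent.H31.LEV.Targets

/-!
Levinson's method, module NA: the lower bound for the number of simple zeros on the critical line.
-/

set_option autoImplicit false

open Complex Filter Topology Set
open Pool.Agent.H31.LEV

namespace Pool.Agent.H22.LEV

lemma Ro_eq (a b c d : ℝ) : Ro a b c d = (reCLM ⁻¹' Ioo a b) ∩ (imCLM ⁻¹' Ioo c d) := by
  ext s
  simp only [Ro, mem_ofPred_eq, mem_inter_iff, mem_preimage, mem_Ioo, reCLM_apply, imCLM_apply]
  tauto

lemma isOpen_Ro (a b c d : ℝ) : IsOpen (Ro a b c d) := by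
  rw [Ro_eq]
  exact (isOpen_Ioo.preimage reCLM.continuous).inter (isOpen_Ioo.preimage imCLM.continuous)

lemma isPreconnected_Ro (a b c d : ℝ) : IsPreconnected (Ro a b c d) := by
  rw [Ro_eq]
  exact (((convex_Ioo a b).linear_preimage reCLM.toLinearMap).inter
    ((convex_Ioo c d).linear_preimage imCLM.toLinearMap)).isPreconnected

lemma pt_re (x t : ℝ) : (pt x t).re = x := by simp [pt]

lemma pt_im (x t : ℝ) : (pt x t).im = t := by simp [pt]

lemma pt_eta (s : ℂ) : pt s.re s.im = s := by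
  simp [pt, Complex.re_add_im]

lemma hasDerivAt_pt (x t : ℝ) : HasDerivAt (fun t : ℝ => pt x t) I t := by
  have h : HasDerivAt (fun t : ℝ => (x : ℂ) + (t : ℂ) * I) (0 + 1 * I) t :=
    (hasDerivAt_const t (x : ℂ)).add ((ofRealCLM.hasDerivAt).mul_const I)
  simpa [pt] using h

lemma continuous_pt (x : ℝ) : Continuous (fun t : ℝ => pt x t) :=
  continuous_iff_continuousAt.mpr fun t => (hasDerivAt_pt x t).continuousAt

lemma hasDerivAt_line {F : ℂ → ℂ} {F' : ℂ} {x t : ℝ} (h : HasDerivAt F F' (pt x t)) :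
    HasDerivAt (fun t : ℝ => F (pt x t)) (I * F') t := by
  have := HasDerivAt.scomp t h (hasDerivAt_pt x t)
  simpa [Function.comp_def, smul_eq_mul] using this

open Classical in
lemma NZ_eq_sum (f : ℂ → ℂ) (S T : Set ℂ) (hfin : {z | z ∈ S ∧ f z = 0}.Finite) (hT : T ⊆ S) :
    NZ f T = ∑ ρ ∈ hfin.toFinset.filter (· ∈ T), analyticOrderNatAt f ρ := by
  unfold NZ
  apply finsum_mem_eq_sum_of_inter_support_eq
  ext z
  simp only [mem_inter_iff, Function.mem_support, Finset.coe_filter, Set.Finite.mem_toFinset,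
    mem_ofPred_eq]
  constructor
  · rintro ⟨h1, h2⟩
    exact ⟨⟨⟨hT h1, apply_eq_zero_of_analyticOrderNatAt_ne_zero h2⟩, h1⟩, h2⟩
  · rintro ⟨⟨_, h1⟩, h2⟩
    exact ⟨h1, h2⟩

lemma NZ_add_le (f : ℂ → ℂ) (S₁ S₂ S : Set ℂ) (hfin : {z | z ∈ S ∧ f z = 0}.Finite)
    (h₁ : S₁ ⊆ S) (h₂ : S₂ ⊆ S) (hd : ∀ z ∈ S₁, z ∉ S₂) : NZ f S₁ + NZ f S₂ ≤ NZ f S := by
  classical
  rw [NZ_eq_sum f S S₁ hfin h₁, NZ_eq_sum f S S₂ hfin h₂, NZ_eq_sum f S S hfin le_rfl,
    ← Finset.sum_union]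
  · apply Finset.sum_le_sum_of_subset
    intro z hz
    simp only [Finset.mem_union, Finset.mem_filter] at hz ⊢
    rcases hz with h | h
    · exact ⟨h.1, h₁ h.2⟩
    · exact ⟨h.1, h₂ h.2⟩
  · rw [Finset.disjoint_left]
    intro z hz hz'
    simp only [Finset.mem_filter] at hz hz'
    exact hd z hz.2 hz'.2

lemma hasDerivAt_HH (B : ℝ) (hB : 1 ≤ B) (s : ℂ) (hs : 0 < s.re) :
    HasDerivAt (HH B) (HH B s * (Real.log B + digamma s)) s := by
  have hB0 : (B : ℂ) ≠ 0 := by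
    exact_mod_cast (by linarith : B ≠ 0)
  have h1 : HasDerivAt (fun s : ℂ => (B : ℂ) ^ s) ((B : ℂ) ^ s * Complex.log B * 1) s :=
    (hasDerivAt_id s).const_cpow (Or.inl hB0)
  have hG : HasDerivAt Gamma (deriv Gamma s) s := by
    apply DifferentiableAt.hasDerivAt
    apply differentiableAt_Gamma
    intro m hm
    have := congrArg Complex.re hm
    simp at this
    have h2 : (0 : ℝ) ≤ m := Nat.cast_nonneg m
    linarith
  have hG0 : Gamma s ≠ 0 := Gamma_ne_zero_of_re_pos hs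
  have h3 := h1.mul hG
  have h4 : (B : ℂ) ^ s * Complex.log B * 1 * Gamma s + (B : ℂ) ^ s * deriv Gamma s =
      HH B s * (Real.log B + digamma s) := by
    rw [digamma_def, logDeriv_apply, HH, ← ofReal_log (by linarith)]
    field_simp
  rw [← h4]
  exact h3

lemma HH_ne_zero (B : ℝ) (hB : 1 ≤ B) (s : ℂ) (hs : 0 < s.re) : HH B s ≠ 0 := by
  have hB0 : (B : ℂ) ≠ 0 := by
    exact_mod_cast (by linarith : B ≠ 0)
  refine mul_ne_zero ?_ (Gamma_ne_zero_of_re_pos hs)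
  simp [cpow_def, hB0, exp_ne_zero]

lemma continuousOn_digamma : ContinuousOn digamma {s : ℂ | 0 < s.re} := by
  have ho : IsOpen {s : ℂ | 0 < s.re} := isOpen_lt continuous_const continuous_re
  have hd : DifferentiableOn ℂ Gamma {s : ℂ | 0 < s.re} := by
    intro s hs
    apply DifferentiableAt.differentiableWithinAt
    apply differentiableAt_Gamma
    intro m hm
    have := congrArg Complex.re hm
    simp at this
    have h2 : (0 : ℝ) ≤ m := Nat.cast_nonneg m
    have h3 : 0 < s.re := hs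
    linarith
  have h1 : ContinuousOn (deriv Gamma) {s : ℂ | 0 < s.re} := (hd.deriv ho).continuousOn
  exact h1.div hd.continuousOn fun s hs => Gamma_ne_zero_of_re_pos hs

lemma prod_pt (Y : Multiset ℝ) (t : ℝ) :
    (Y.map (fun y : ℝ => pt (1 / 2) t - pt (1 / 2) y)).prod =
      I ^ Multiset.card Y * (((Y.map (fun y : ℝ => t - y)).prod : ℝ) : ℂ) := by
  induction Y using Multiset.induction_on with
  | empty => simp
  | cons a Y ih =>
    simp only [Multiset.map_cons, Multiset.prod_cons, Multiset.card_cons, ih, pow_succ]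
    push_cast
    simp only [pt]
    push_cast
    ring

lemma prod_real_ne_zero (Y : Multiset ℝ) (t : ℝ) (h : t ∉ Y) :
    (Y.map (fun y : ℝ => t - y)).prod ≠ 0 := by
  intro h0
  rw [Multiset.prod_eq_zero_iff] at h0
  obtain ⟨y, hy, hy'⟩ := Multiset.mem_map.mp h0
  have : t = y := by linarith
  exact h (this ▸ hy)

lemma pt_mem_Ro {x t a b c d : ℝ} (h1 : a < x) (h2 : x < b) (h3 : c < t) (h4 : t < d) :
    pt x t ∈ Ro a b c d := by
  refine ⟨?_, ?_, ?_, ?_⟩ <;> simp only [pt_re, pt_im] <;> assumption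

/-- The function `q` and its logarithmic derivative. -/
lemma arg_q (B : ℝ) (hB : 1 ≤ B) (h G : ℂ → ℂ) (U : Set ℂ) (c d : ℝ) (κ : ℂ) (hκ : κ ≠ 0)
    (hcd : c ≤ d) (hU : IsOpen U) (hUre : ∀ s ∈ U, 0 < s.re)
    (hseg : ∀ t ∈ Icc c d, pt (1 / 2) t ∈ U) (hh : DifferentiableOn ℂ h U)
    (hG : DifferentiableOn ℂ G U) (hh0 : ∀ t ∈ Icc c d, h (pt (1 / 2) t) ≠ 0)
    (hG0 : ∀ t ∈ Icc c d, G (pt (1 / 2) t) ≠ 0) :
    ∃ q' : ℝ → ℂ,
      (∀ t ∈ Icc c d, HasDerivAt (fun t : ℝ => κ * (HH B (pt (1 / 2) t) * h (pt (1 / 2) t) *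
        G (pt (1 / 2) t))) (q' t) t) ∧
      ContinuousOn q' (Icc c d) ∧
      (∫ t in c..d, q' t / (κ * (HH B (pt (1 / 2) t) * h (pt (1 / 2) t) *
        G (pt (1 / 2) t)))).im =
        (∫ t in c..d, (Real.log B + (digamma (pt (1 / 2) t)).re)) +
        (∫ t in c..d, (I * deriv h (pt (1 / 2) t)) / h (pt (1 / 2) t)).im + LSi G c d := by
  have hmaps : MapsTo (fun t : ℝ => pt (1 / 2) t) (Icc c d) U := fun t ht => hseg t ht
  have cpt : ContinuousOn (fun t : ℝ => pt (1 / 2) t) (Icc c d) := (continuous_pt _).continuousOn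
  have cdig : ContinuousOn (fun t : ℝ => digamma (pt (1 / 2) t)) (Icc c d) :=
    (continuousOn_digamma.mono hUre).comp cpt hmaps
  have chh : ContinuousOn (fun t : ℝ => h (pt (1 / 2) t)) (Icc c d) :=
    hh.continuousOn.comp cpt hmaps
  have cGG : ContinuousOn (fun t : ℝ => G (pt (1 / 2) t)) (Icc c d) :=
    hG.continuousOn.comp cpt hmaps
  have cdh : ContinuousOn (fun t : ℝ => deriv h (pt (1 / 2) t)) (Icc c d) :=
    (hh.deriv hU).continuousOn.comp cpt hmaps
  have cdG : ContinuousOn (fun t : ℝ => deriv G (pt (1 / 2) t)) (Icc c d) :=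
    (hG.deriv hU).continuousOn.comp cpt hmaps
  have cHH : ContinuousOn (fun t : ℝ => HH B (pt (1 / 2) t)) (Icc c d) := by
    intro t ht
    exact (hasDerivAt_line (hasDerivAt_HH B hB _
      (hUre _ (hseg t ht)))).continuousAt.continuousWithinAt
  have cw : ContinuousOn (fun t : ℝ => I * ((Real.log B + digamma (pt (1 / 2) t)) +
      deriv h (pt (1 / 2) t) / h (pt (1 / 2) t) +
      deriv G (pt (1 / 2) t) / G (pt (1 / 2) t))) (Icc c d) := by
    apply continuousOn_const.mul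
    exact ((continuousOn_const.add cdig).add (cdh.div chh hh0)).add (cdG.div cGG hG0)
  have hq0 : ∀ t ∈ Icc c d, κ * (HH B (pt (1 / 2) t) * h (pt (1 / 2) t) *
      G (pt (1 / 2) t)) ≠ 0 := fun t ht => mul_ne_zero hκ (mul_ne_zero (mul_ne_zero
        (HH_ne_zero B hB _ (hUre _ (hseg t ht))) (hh0 t ht)) (hG0 t ht))
  refine ⟨fun t => κ * (HH B (pt (1 / 2) t) * h (pt (1 / 2) t) * G (pt (1 / 2) t)) *
    (I * ((Real.log B + digamma (pt (1 / 2) t)) + deriv h (pt (1 / 2) t) / h (pt (1 / 2) t) +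
      deriv G (pt (1 / 2) t) / G (pt (1 / 2) t))), ?_, ?_, ?_⟩
  · intro t ht
    have e1 := hasDerivAt_line (hasDerivAt_HH B hB _ (hUre _ (hseg t ht)))
    have e2 := hasDerivAt_line ((hh.differentiableAt (hU.mem_nhds (hseg t ht))).hasDerivAt)
    have e3 := hasDerivAt_line ((hG.differentiableAt (hU.mem_nhds (hseg t ht))).hasDerivAt)
    have e4 := ((e1.mul e2).mul e3).const_mul κ
    refine e4.congr_deriv ?_
    have a1 := hh0 t ht
    have a2 := hG0 t ht
    simp only [Pi.mul_apply]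
    field_simp
  · exact ((continuousOn_const.mul ((cHH.mul chh).mul cGG)).mul cw)
  · have i1 : (∫ t in c..d, κ * (HH B (pt (1 / 2) t) * h (pt (1 / 2) t) * G (pt (1 / 2) t)) *
        (I * ((Real.log B + digamma (pt (1 / 2) t)) + deriv h (pt (1 / 2) t) /
        h (pt (1 / 2) t) + deriv G (pt (1 / 2) t) / G (pt (1 / 2) t))) /
        (κ * (HH B (pt (1 / 2) t) * h (pt (1 / 2) t) * G (pt (1 / 2) t)))) =
        (∫ t in c..d, I * (Real.log B + digamma (pt (1 / 2) t))) +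
        (∫ t in c..d, (I * deriv h (pt (1 / 2) t)) / h (pt (1 / 2) t)) +
        ∫ t in c..d, I * (deriv G (pt (1 / 2) t) / G (pt (1 / 2) t)) := by
      rw [← intervalIntegral.integral_add, ← intervalIntegral.integral_add]
      · apply intervalIntegral.integral_congr
        intro t ht
        rw [uIcc_of_le hcd] at ht
        have a1 := hq0 t ht
        have a2 := hh0 t ht
        have a3 := hG0 t ht
        simp only
        rw [mul_div_assoc, mul_comm, div_mul_cancel₀ _ a1]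
        ring
      · apply ContinuousOn.intervalIntegrable
        rw [uIcc_of_le hcd]
        exact (continuousOn_const.mul (continuousOn_const.add cdig)).add
          ((continuousOn_const.mul cdh).div chh hh0)
      · apply ContinuousOn.intervalIntegrable
        rw [uIcc_of_le hcd]
        exact continuousOn_const.mul (cdG.div cGG hG0)
      · apply ContinuousOn.intervalIntegrable
        rw [uIcc_of_le hcd]
        exact continuousOn_const.mul (continuousOn_const.add cdig)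
      · apply ContinuousOn.intervalIntegrable
        rw [uIcc_of_le hcd]
        exact (continuousOn_const.mul cdh).div chh hh0
    have i2 : (∫ t in c..d, I * (Real.log B + digamma (pt (1 / 2) t))).im =
        ∫ t in c..d, (Real.log B + (digamma (pt (1 / 2) t)).re) := by
      rw [intervalIntegral.integral_const_mul]
      have hi : IntervalIntegrable (fun t : ℝ => (Real.log B : ℂ) + digamma (pt (1 / 2) t))
          MeasureTheory.volume c d := by
        apply ContinuousOn.intervalIntegrable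
        rw [uIcc_of_le hcd]
        exact continuousOn_const.add cdig
      have : (∫ t in c..d, ((Real.log B : ℂ) + digamma (pt (1 / 2) t))).re =
          ∫ t in c..d, ((Real.log B : ℂ) + digamma (pt (1 / 2) t)).re := by
        have := (reCLM.intervalIntegral_comp_comm hi)
        simpa using this.symm
      rw [mul_im, I_re, I_im, zero_mul, one_mul, zero_add, this]
      apply intervalIntegral.integral_congr
      intro t _
      simp
    rw [i1, add_im, add_im, i2]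
    congr 1
    rw [intervalIntegral.integral_const_mul]
    simp [LSi, mul_im]

/-- The integral over the three sides is small. -/
lemma TSi_bound (CH : ℝ) (hHOR : ∀ (f : ℂ → ℂ) (τ M : ℝ), 1 ≤ M →
    DifferentiableOn ℂ f (Metric.ball (pt 3 τ) (14 / 5)) →
    (∀ s ∈ Metric.ball (pt 3 τ) (14 / 5), ‖f s‖ ≤ M) → 1 / 2 ≤ ‖f (pt 3 τ)‖ →
    (∀ x : ℝ, 1 / 2 ≤ x → x ≤ 3 → f (pt x τ) ≠ 0) →
    |(∫ x in (1 / 2 : ℝ)..3, deriv f (pt x τ) / f (pt x τ)).im| ≤ CH * (1 + Real.log M))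
    (hVER : T_VER) (V : ℂ → ℂ) (T M c d : ℝ) (hM : 1 ≤ M) (hc : 0 < c) (hcd : c ≤ d) (hd : d < T)
    (hV : DifferentiableOn ℂ V (Ro (1 / 10) 6 (-6) (T + 6)))
    (hVM : ∀ s ∈ Ro (1 / 10) 6 (-6) (T + 6), ‖V s‖ ≤ M)
    (hV3 : ∀ t : ℝ, 0 ≤ t → t ≤ T → ‖V (pt 3 t) - 1‖ ≤ 1 / 2)
    (hV0 : ∀ x : ℝ, 1 / 2 ≤ x → x ≤ 3 → V (pt x c) ≠ 0 ∧ V (pt x d) ≠ 0) :
    -(2 * CH * (1 + Real.log M) + Real.pi) ≤ TSi V c d := by
  have hball : ∀ τ : ℝ, 0 < τ → τ < T →
      Metric.ball (pt 3 τ) (14 / 5) ⊆ Ro (1 / 10) 6 (-6) (T + 6) := by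
    intro τ h1 h2 s hs
    rw [Metric.mem_ball, dist_eq_norm] at hs
    have e1 := (abs_re_le_norm (s - pt 3 τ)).trans_lt hs
    have e2 := (abs_im_le_norm (s - pt 3 τ)).trans_lt hs
    rw [sub_re, pt_re, abs_lt] at e1
    rw [sub_im, pt_im, abs_lt] at e2
    refine ⟨?_, ?_, ?_, ?_⟩ <;> linarith [e1.1, e1.2, e2.1, e2.2]
  have hhalf : ∀ t : ℝ, 0 ≤ t → t ≤ T → 1 / 2 ≤ ‖V (pt 3 t)‖ := by
    intro t h1 h2
    have e1 := hV3 t h1 h2
    have e2 : ‖(1 : ℂ)‖ ≤ ‖V (pt 3 t)‖ + ‖V (pt 3 t) - 1‖ := by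
      calc ‖(1 : ℂ)‖ = ‖V (pt 3 t) - (V (pt 3 t) - 1)‖ := by congr 1; ring
        _ ≤ _ := norm_sub_le _ _
    rw [norm_one] at e2
    linarith
  have b1 := hHOR V c M hM (hV.mono (hball c hc (hcd.trans_lt hd)))
    (fun s hs => hVM s (hball c hc (hcd.trans_lt hd) hs))
    (hhalf c hc.le (hcd.trans hd.le)) (fun x h1 h2 => (hV0 x h1 h2).1)
  have b2 := hHOR V d M hM (hV.mono (hball d (hc.trans_le hcd) hd))
    (fun s hs => hVM s (hball d (hc.trans_le hcd) hd hs))
    (hhalf d (hc.le.trans hcd) hd.le) (fun x h1 h2 => (hV0 x h1 h2).2)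
  have hU := isOpen_Ro (1 / 10) 6 (-6) (T + 6)
  have hseg : ∀ t ∈ Icc c d, pt 3 t ∈ Ro (1 / 10) 6 (-6) (T + 6) := by
    intro t ht
    exact pt_mem_Ro (by norm_num) (by norm_num) (by linarith [ht.1]) (by linarith [ht.2])
  have b3 := hVER (fun t : ℝ => V (pt 3 t)) (fun t : ℝ => I * deriv V (pt 3 t)) c d hcd
    (fun t ht => hasDerivAt_line
      ((hV.differentiableAt (hU.mem_nhds (hseg t ht))).hasDerivAt))
    (continuousOn_const.mul ((hV.deriv hU).continuousOn.comp (continuous_pt _).continuousOn hseg))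
    (fun t ht => by
      have e1 := hV3 t (hc.le.trans ht.1) (ht.2.trans hd.le)
      have e2 := (abs_re_le_norm (V (pt 3 t) - 1)).trans e1
      rw [sub_re, one_re, abs_le] at e2
      linarith [e2.1])
  have b4 : (∫ t in c..d, (I * deriv V (pt 3 t)) / V (pt 3 t)).im =
      (∫ t in c..d, deriv V (pt 3 t) / V (pt 3 t)).re := by
    have : ∀ t : ℝ, (I * deriv V (pt 3 t)) / V (pt 3 t) = I * (deriv V (pt 3 t) / V (pt 3 t)) :=
      fun t => mul_div_assoc _ _ _
    simp only [this]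
    rw [intervalIntegral.integral_const_mul]
    simp [mul_im]
  rw [b4] at b3
  rw [TSi]
  have c1 := (abs_le.mp b1).1
  have c2 := (abs_le.mp b2).2
  have c3 := (abs_le.mp b3).1
  linarith

theorem pf_NA (hHOR : T_HOR) (hVER : T_VER) (hTS : T_TS) (hGEN : T_GEN) (hZT : T_ZT)
    (hRZ : T_RZ) (hHHR : T_HHR) : T_NA := by
  classical
  obtain ⟨CH, hCH, hHOR⟩ := hHOR
  have hlog3 : 0 < Real.log 3 := Real.log_pos (by norm_num)
  have hpi := Real.pi_pos
  refine ⟨2 * CH * (1 + Real.log 3) / Real.pi + 3, by positivity, ?_⟩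
  intro L B W T M D c hB hT hM hD hc hc1 hFE hbd hV3 hdig
  have hlogM : 0 ≤ Real.log M := Real.log_nonneg hM
  rcases le_or_gt (Real.log B) D with hBD | hBD
  · have h1 : (T - 2) * (Real.log B - D) / Real.pi ≤ 0 := by
      apply div_nonpos_of_nonpos_of_nonneg _ hpi.le
      apply mul_nonpos_of_nonneg_of_nonpos <;> linarith
    have h2 : (0 : ℝ) ≤ 2 * NZ (VV L B c) {s | 1 / 2 ≤ s.re ∧ s.re < 3 ∧ 0 < s.im ∧ s.im < T} := by
      positivity
    have h3 : 0 ≤ (2 * CH * (1 + Real.log 3) / Real.pi + 3) * (1 + Real.log M) := by positivity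
    have h4 : (0 : ℝ) ≤ (SC L T).ncard := by positivity
    linarith
  set U := Ro (1 / 10) 6 (-6) (T + 6) with hUdef
  have hU : IsOpen U := isOpen_Ro _ _ _ _
  have hUp : IsPreconnected U := isPreconnected_Ro _ _ _ _
  have hUre : ∀ s ∈ U, 0 < s.re := fun s hs => lt_trans (by norm_num) hs.1
  obtain ⟨hhre, hhd, hVd, hVn⟩ := hHHR L B c U hB hc hFE.diff hU
    (fun s hs => ⟨hUre s hs, (hbd s hs).2.2⟩)
  have hVM : ∀ s ∈ U, ‖VV L B c s‖ ≤ 3 * M := by
    intro s hs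
    have e1 := hVn s hs
    have e2 := (hbd s hs).1
    have e3 := (hbd s hs).2.1
    have e4 : 2 * c * ‖deriv L s‖ ≤ 2 * 1 * M := by
      gcongr
    linarith
  have hV30 : ∀ t : ℝ, 0 ≤ t → t ≤ T → VV L B c (pt 3 t) ≠ 0 := by
    intro t h1 h2 h0
    have := hV3 t h1 h2
    rw [h0, zero_sub, norm_neg, norm_one] at this
    norm_num at this
  have hp30 : pt 3 0 ∈ U :=
    pt_mem_Ro (by norm_num) (by norm_num) (by norm_num) (by linarith)
  have hRc : Rc (1 / 2) 3 0 T ⊆ U := by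
    intro s hs
    exact ⟨by linarith [hs.1], by linarith [hs.2.1], by linarith [hs.2.2.1],
      by linarith [hs.2.2.2]⟩
  obtain ⟨fin1, fin2⟩ := hGEN Unit (fun _ => VV L B c) U (1 / 2) 3 0 T hU hUp hRc (fun _ => hVd)
    (fun _ => ⟨pt 3 0, hp30, hV30 0 le_rfl (by linarith)⟩)
  have hLne : ∃ z ∈ U, L z ≠ 0 := by
    by_contra hcon
    push Not at hcon
    apply hV30 0 le_rfl (by linarith)
    have e1 : deriv L (pt 3 0) = 0 := by
      have : L =ᶠ[𝓝 (pt 3 0)] fun _ => (0 : ℂ) := by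
        filter_upwards [hU.mem_nhds hp30] with z hz using hcon z hz
      rw [this.deriv_eq]
      simp
    simp [VV, hcon _ hp30, e1]
  obtain ⟨-, finL⟩ := hGEN Unit (fun _ => L) U (1 / 2) 3 0 T hU hUp hRc
    (fun _ => hFE.diff.differentiableOn) (fun _ => hLne)
  -- generic heights
  obtain ⟨c₀, hc₀, hc₀'⟩ : ∃ c₀ ∈ Ioo (0 : ℝ) 1, c₀ ∉ {t : ℝ | ∃ (_ : Unit), ∃ x : ℝ,
      pt x t ∈ Rc (1 / 2) 3 0 T ∧ VV L B c (pt x t) = 0} :=
    (Ioo_infinite (by norm_num : (0 : ℝ) < 1)).exists_notMem_finite fin2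
  obtain ⟨d₀, hd₀, hd₀'⟩ : ∃ d₀ ∈ Ioo (T - 1) T, d₀ ∉ {t : ℝ | ∃ (_ : Unit), ∃ x : ℝ,
      pt x t ∈ Rc (1 / 2) 3 0 T ∧ VV L B c (pt x t) = 0} :=
    (Ioo_infinite (by linarith : T - 1 < T)).exists_notMem_finite fin2
  have hcd : c₀ < d₀ := by linarith [hc₀.2, hd₀.1]
  have hV0 : ∀ x : ℝ, 1 / 2 ≤ x → x ≤ 3 → VV L B c (pt x c₀) ≠ 0 ∧ VV L B c (pt x d₀) ≠ 0 := by
    intro x h1 h2
    constructor
    · intro h0
      refine hc₀' ⟨(), x, ?_, h0⟩
      simp only [Rc, mem_ofPred_eq, pt_re, pt_im]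
      exact ⟨h1, h2, hc₀.1.le, by linarith [hc₀.2]⟩
    · intro h0
      refine hd₀' ⟨(), x, ?_, h0⟩
      simp only [Rc, mem_ofPred_eq, pt_re, pt_im]
      exact ⟨h1, h2, by linarith [hd₀.1], hd₀.2.le⟩
  have hRc' : Rc (1 / 2) 3 c₀ d₀ ⊆ U := by
    intro s hs
    exact ⟨by linarith [hs.1], by linarith [hs.2.1], by linarith [hs.2.2.1, hc₀.1],
      by linarith [hs.2.2.2, hd₀.2]⟩
  obtain ⟨Y, G, hY, hGd, hG0, hVG, hYcard, hLSi⟩ := hTS (VV L B c) U c₀ d₀ hcd hU hUp hRc' hVd hV0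
    (fun t h1 h2 => hV30 t (hc₀.1.le.trans h1) (h2.trans hd₀.2.le))
  have hTSi := TSi_bound CH hHOR hVER (VV L B c) T (3 * M) c₀ d₀ (by linarith) hc₀.1 hcd.le hd₀.2
    hVd hVM hV3 hV0
  have hseg : ∀ t ∈ Icc c₀ d₀, pt (1 / 2) t ∈ U := by
    intro t ht
    exact pt_mem_Ro (by norm_num) (by norm_num) (by linarith [ht.1, hc₀.1])
      (by linarith [ht.2, hd₀.2])
  have hh0 : ∀ t ∈ Icc c₀ d₀, hh B c (pt (1 / 2) t) ≠ 0 := by
    intro t ht h0
    have := hhre _ (hseg t ht)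
    rw [h0, zero_re] at this
    norm_num at this
  obtain ⟨ω, Z, Z', hω, hZd, hZ⟩ := hZT L B W (by linarith) hFE
  have hω0 : ω ≠ 0 := by
    intro h
    rw [h, norm_zero] at hω
    norm_num at hω
  set m := Multiset.card Y with hm
  set κ : ℂ := I ^ m / ω with hκdef
  have hκ : κ ≠ 0 := div_ne_zero (pow_ne_zero _ I_ne_zero) hω0
  obtain ⟨q', hq'1, hq'2, hq'3⟩ := arg_q B hB (hh B c) G U c₀ d₀ κ hκ hcd.le hU hUre hseg hhd hGd
    hh0 (fun t ht => hG0 t ht.1 ht.2)
  have hq0 : ∀ t ∈ Icc c₀ d₀, κ * (HH B (pt (1 / 2) t) * hh B c (pt (1 / 2) t) *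
      G (pt (1 / 2) t)) ≠ 0 := fun t ht => mul_ne_zero hκ (mul_ne_zero (mul_ne_zero
        (HH_ne_zero B hB _ (hUre _ (hseg t ht))) (hh0 t ht)) (hG0 t ht.1 ht.2))
  -- the identity
  have hid : ∀ t ∈ Icc c₀ d₀, (((Y.map (fun y : ℝ => t - y)).prod : ℝ) : ℂ) *
      (κ * (HH B (pt (1 / 2) t) * hh B c (pt (1 / 2) t) * G (pt (1 / 2) t))) =
      (Z t : ℂ) - I * (c * Z' t : ℝ) := by
    intro t ht
    obtain ⟨z1, z2⟩ := hZ t
    have e1 := hVG _ (hseg t ht)
    rw [prod_pt, ← hm] at e1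
    have e2 : HH B (pt (1 / 2) t) * hh B c (pt (1 / 2) t) * VV L B c (pt (1 / 2) t) =
        ω * ((Z t : ℂ) - I * (c * Z' t : ℝ)) := by
      have : HH B (pt (1 / 2) t) * hh B c (pt (1 / 2) t) * VV L B c (pt (1 / 2) t) =
          HH B (pt (1 / 2) t) * L (pt (1 / 2) t) + c * (HH B (pt (1 / 2) t) *
          ((Real.log B + digamma (pt (1 / 2) t)) * L (pt (1 / 2) t) +
            deriv L (pt (1 / 2) t))) := by
        have h0 := hh0 t ht
        rw [VV]
        field_simp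
        rw [hh]
        ring
      rw [this, z1, z2]
      push_cast
      ring
    rw [e1] at e2
    rw [hκdef]
    field_simp
    rw [← e2]
    ring
  have hfinSC : (SC L T).Finite := by
    refine finL.subset ?_
    rintro t ⟨h1, h2, h3, -⟩
    refine ⟨(), 1 / 2, ?_, h3⟩
    simp only [Rc, mem_ofPred_eq, pt_re, pt_im]
    exact ⟨le_rfl, by norm_num, h1.le, h2.le⟩
  have hRZ' := hRZ (fun t : ℝ => κ * (HH B (pt (1 / 2) t) * hh B c (pt (1 / 2) t) *
    G (pt (1 / 2) t))) q' c₀ d₀ hcd hq'1 hq'2 hq0 (hfinSC.toFinset ∪ Y.toFinset) (by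
      intro t ht h0
      have htI : t ∈ Icc c₀ d₀ := ⟨ht.1.le, ht.2.le⟩
      rw [Finset.mem_union]
      by_cases htY : t ∈ Y
      · exact Or.inr (Multiset.mem_toFinset.mpr htY)
      left
      rw [Set.Finite.mem_toFinset]
      have hp := prod_real_ne_zero Y t htY
      obtain ⟨z1, z2⟩ := hZ t
      have e1 := hid t htI
      have e2 := congrArg Complex.re e1
      have e3 := congrArg Complex.im e1
      rw [re_ofReal_mul, h0] at e2
      rw [im_ofReal_mul] at e3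
      simp only [sub_re, sub_im, mul_re, mul_im, ofReal_re, ofReal_im, I_re, I_im, mul_zero,
        zero_mul, one_mul, sub_zero, zero_sub, zero_add] at e2 e3
      have hqi : (κ * (HH B (pt (1 / 2) t) * hh B c (pt (1 / 2) t) *
          G (pt (1 / 2) t))).im ≠ 0 := by
        intro hi
        apply hq0 t htI
        exact Complex.ext h0 hi
      have hZ0 : Z t = 0 := e2.symm
      have hZ'0 : Z' t ≠ 0 := by
        intro hz
        rw [hz, mul_zero, neg_zero] at e3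
        exact (mul_ne_zero hp hqi) e3
      have hH0 := HH_ne_zero B hB _ (hUre _ (hseg t htI))
      have hL0 : L (pt (1 / 2) t) = 0 := by
        rw [hZ0, ofReal_zero, mul_zero] at z1
        exact (mul_eq_zero.mp z1).resolve_left hH0
      refine ⟨hc₀.1.trans ht.1, ht.2.trans hd₀.2, hL0, ?_⟩
      intro hL'
      rw [hL0, hL', mul_zero, add_zero, mul_zero] at z2
      have : -I * ω * (Z' t : ℂ) ≠ 0 := by
        refine mul_ne_zero (mul_ne_zero (neg_ne_zero.mpr I_ne_zero) hω0) ?_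
        exact_mod_cast hZ'0
      exact this z2.symm)
  rw [hq'3, hLSi] at hRZ'
  -- the counting function of the zeros
  have hfinV : {z | z ∈ {s : ℂ | 1 / 2 ≤ s.re ∧ s.re < 3 ∧ 0 < s.im ∧ s.im < T} ∧
      VV L B c z = 0}.Finite := by
    have : {z | z ∈ {s : ℂ | 1 / 2 ≤ s.re ∧ s.re < 3 ∧ 0 < s.im ∧ s.im < T} ∧
        VV L B c z = 0} ⊆ (fun p : ℝ × ℝ => pt p.1 p.2) '' (
          {x : ℝ | ∃ (_ : Unit), ∃ t : ℝ, pt x t ∈ Rc (1 / 2) 3 0 T ∧ VV L B c (pt x t) = 0} ×ˢ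
          {t : ℝ | ∃ (_ : Unit), ∃ x : ℝ, pt x t ∈ Rc (1 / 2) 3 0 T ∧
            VV L B c (pt x t) = 0}) := by
      rintro z ⟨⟨h1, h2, h3, h4⟩, h5⟩
      refine ⟨(z.re, z.im), ⟨⟨(), z.im, ?_, ?_⟩, ⟨(), z.re, ?_, ?_⟩⟩, pt_eta z⟩
      · rw [pt_eta]
        exact ⟨h1, h2.le, h3.le, h4.le⟩
      · rw [pt_eta]
        exact h5
      · rw [pt_eta]
        exact ⟨h1, h2.le, h3.le, h4.le⟩
      · rw [pt_eta]
        exact h5
    exact ((fin1.prod fin2).image _).subset this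
  have hNZ := NZ_add_le (VV L B c) {s | 1 / 2 < s.re ∧ s.re < 3 ∧ c₀ < s.im ∧ s.im < d₀}
    {s | s.re = 1 / 2 ∧ c₀ < s.im ∧ s.im < d₀}
    {s : ℂ | 1 / 2 ≤ s.re ∧ s.re < 3 ∧ 0 < s.im ∧ s.im < T} hfinV
    (fun s hs => ⟨hs.1.le, hs.2.1, hc₀.1.trans hs.2.2.1, hs.2.2.2.trans hd₀.2⟩)
    (fun s hs => ⟨hs.1.ge, by rw [hs.1]; norm_num, hc₀.1.trans hs.2.1, hs.2.2.trans hd₀.2⟩)
    (fun s hs hs' => by
      have h1 : 1 / 2 < s.re := hs.1
      have h2 : s.re = 1 / 2 := hs'.1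
      linarith)
  rw [← hYcard] at hNZ
  have hNZ' : (NZ (VV L B c) {s | 1 / 2 < s.re ∧ s.re < 3 ∧ c₀ < s.im ∧ s.im < d₀} : ℝ) + m ≤
      NZ (VV L B c) {s : ℂ | 1 / 2 ≤ s.re ∧ s.re < 3 ∧ 0 < s.im ∧ s.im < T} := by
    exact_mod_cast hNZ
  -- the cardinality
  have hcard : ((hfinSC.toFinset ∪ Y.toFinset).card : ℝ) ≤ (SC L T).ncard + m := by
    have h1 : (hfinSC.toFinset ∪ Y.toFinset).card ≤ hfinSC.toFinset.card + Y.toFinset.card :=
      Finset.card_union_le _ _
    have h2 : Y.toFinset.card ≤ m := Multiset.toFinset_card_le Y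
    have h3 : (SC L T).ncard = hfinSC.toFinset.card := Set.ncard_eq_toFinset_card _ hfinSC
    have h4 : (hfinSC.toFinset ∪ Y.toFinset).card ≤ (SC L T).ncard + m := by omega
    exact_mod_cast h4
  -- the integral of the digamma function
  have cdig : ContinuousOn (fun t : ℝ => digamma (pt (1 / 2) t)) (Icc c₀ d₀) :=
    (continuousOn_digamma.mono hUre).comp (continuous_pt _).continuousOn hseg
  have hdigint : (d₀ - c₀) * (Real.log B - D) ≤
      ∫ t in c₀..d₀, (Real.log B + (digamma (pt (1 / 2) t)).re) := by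
    have e1 : (∫ _t in c₀..d₀, (Real.log B - D)) = (d₀ - c₀) * (Real.log B - D) := by
      rw [intervalIntegral.integral_const, smul_eq_mul]
    rw [← e1]
    apply intervalIntegral.integral_mono_on hcd.le
    · exact intervalIntegrable_const
    · apply ContinuousOn.intervalIntegrable
      rw [uIcc_of_le hcd.le]
      exact continuousOn_const.add (continuous_re.comp_continuousOn cdig)
    · intro t ht
      have := (abs_le.mp (hdig t (hc₀.1.le.trans ht.1) (ht.2.trans hd₀.2.le))).1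
      linarith
  have hVER' := hVER (fun t : ℝ => hh B c (pt (1 / 2) t)) (fun t : ℝ => I * deriv (hh B c)
    (pt (1 / 2) t)) c₀ d₀ hcd.le
    (fun t ht => hasDerivAt_line
      ((hhd.differentiableAt (hU.mem_nhds (hseg t ht))).hasDerivAt))
    (continuousOn_const.mul ((hhd.deriv hU).continuousOn.comp (continuous_pt _).continuousOn hseg))
    (fun t ht => lt_of_lt_of_le (by norm_num) (hhre _ (hseg t ht)))
  have hVERl := (abs_le.mp hVER').1
  have hlen : (T - 2) * (Real.log B - D) ≤ (d₀ - c₀) * (Real.log B - D) := by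
    apply mul_le_mul_of_nonneg_right _ (by linarith)
    linarith [hc₀.2, hd₀.1]
  set N1 : ℝ := (NZ (VV L B c) {s | 1 / 2 < s.re ∧ s.re < 3 ∧ c₀ < s.im ∧ s.im < d₀} : ℝ)
    with hN1
  set NN : ℝ := (NZ (VV L B c) {s : ℂ | 1 / 2 ≤ s.re ∧ s.re < 3 ∧ 0 < s.im ∧ s.im < T} : ℝ)
    with hNN
  have hlog3M : Real.log (3 * M) = Real.log 3 + Real.log M :=
    Real.log_mul (by norm_num) (by linarith)
  rw [hlog3M] at hTSi
  have key := le_trans (sub_le_sub_right (div_le_div_of_nonneg_right (le_abs_self _) hpi.le) 1)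
    hRZ'
  have key2 : ((T - 2) * (Real.log B - D) - Real.pi - (2 * CH * (1 + (Real.log 3 + Real.log M)) +
      Real.pi) - 2 * Real.pi * N1 - Real.pi * m) / Real.pi - 1 ≤ (SC L T).ncard + m := by
    refine le_trans (sub_le_sub_right (div_le_div_of_nonneg_right ?_ hpi.le) 1)
      (key.trans hcard)
    linarith
  have key3 : ((T - 2) * (Real.log B - D) - Real.pi - (2 * CH * (1 + (Real.log 3 + Real.log M)) +
      Real.pi) - 2 * Real.pi * N1 - Real.pi * m) / Real.pi - 1 =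
      (T - 2) * (Real.log B - D) / Real.pi - 3 - 2 * CH * (1 + (Real.log 3 + Real.log M)) /
        Real.pi - 2 * N1 - m := by
    field_simp
    ring
  rw [key3] at key2
  have key4 : 2 * CH * (1 + (Real.log 3 + Real.log M)) / Real.pi + 3 ≤
      (2 * CH * (1 + Real.log 3) / Real.pi + 3) * (1 + Real.log M) := by
    have e1 : 2 * CH * (1 + (Real.log 3 + Real.log M)) ≤
        2 * CH * (1 + Real.log 3) * (1 + Real.log M) := by
      have : 0 ≤ CH * Real.log 3 * Real.log M := by positivity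
      nlinarith
    have e2 : 2 * CH * (1 + (Real.log 3 + Real.log M)) / Real.pi ≤
        2 * CH * (1 + Real.log 3) * (1 + Real.log M) / Real.pi :=
      div_le_div_of_nonneg_right e1 hpi.le
    have e3 : (2 * CH * (1 + Real.log 3) / Real.pi + 3) * (1 + Real.log M) =
        2 * CH * (1 + Real.log 3) * (1 + Real.log M) / Real.pi + 3 * (1 + Real.log M) := by
      ring
    rw [e3]
    linarith
  linarith

end Pool.Agent.H22.LEV
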